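import Pool.Agent.X35.OR.Box

/-!
# The slope zero part at a positive proportion of the primes for Calabi–Yau hypersurfaces `m_1 x_1 ^ n + ... + m_n x_n ^ n + f = 0`, all `f` at once, for
almost all vectors `m` of every box
-/

set_option autoImplicit false

namespace Pool.Agent.Results.MP_db07cb_ag.CalabiYauInBoxes

open Finset MvPolynomial

/-- The number of the solutions modulo `p` of `m_1 x_1 ^ n + ... + m_n x_n ^ n + f (x_1, ..., x_n) = 0`. If `f` is a form of degree `n`, it is `1 + (p - 1) #X (𝔽_p)`, where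
`X` is the hypersurface `m_1 x_1 ^ n + ... + m_n x_n ^ n + f = 0` of degree `n` in `ℙ ^ (n - 1)`. -/
noncomputable def points (p : ℕ) {n : ℕ} (f : MvPolynomial (Fin n) ℤ) (m : Fin n → ℤ) : ℕ :=
  Nat.card {x : Fin n → ZMod p // ∑ i, (m i : ZMod p) * x i ^ n + aeval x f = 0}

/-- **The slope zero part for Calabi–Yau hypersurfaces in boxes.** Let `n ≥ 2`, `δ > 0` and `A` be given. There are `κ > 0`, `C > 0` and `N₀` such that for all
`N ≥ N₀`, all integers `M_i`, all `L_i ≥ N` (`i ≤ n`) and all choices of at most `x ^ A` pairs `(f, P) ∈ H x` of a polynomial `f` with integral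
coefficients in `n` variables of degree at most `n` and a set `P` of integers for every `x ≥ 2`, the following holds for all but at most
`N ^ (- κ) ∏ L_i` of the vectors `m` of integers with `M_i ≤ m_i < M_i + L_i` for all `i`.

For ALL integers `x` with `(log N) ^ C ≤ x ≤ N ^ κ` and ALL `(f, P) ∈ H x` the number of the primes `p ≤ x` in `P`, `p ≡ 1` modulo `n`, for which the number of
the solutions modulo `p` of `m_1 x_1 ^ n + ... + m_n x_n ^ n + f (x_1, ..., x_n) = 0` is not divisible by `p` is at least `(1 - 1 / n) ^ n` times the number of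
all odd primes `p ≤ x` in `P`, `p ≡ 1` modulo `n`, up to an error of at most `x ^ (1 / 2 + δ)`. -/
theorem result (n : ℕ) (hn : 2 ≤ n) (δ A : ℝ) (hδ : 0 < δ) : ∃ κ C : ℝ, 0 < κ ∧ 0 < C ∧ ∃ N₀ : ℕ, ∀ N : ℕ, N₀ ≤ N →
    ∀ (H : ℕ → Finset (MvPolynomial (Fin n) ℤ × Set ℕ)), (∀ x, 2 ≤ x → ((H x).card : ℝ) ≤ (x : ℝ) ^ A) →
    (∀ x, ∀ c ∈ H x, c.1.totalDegree ≤ n) →
    ∀ (M : Fin n → ℤ) (L : Fin n → ℕ), (∀ i, N ≤ L i) →
      ({m : Fin n → ℤ | (∀ i, M i ≤ m i ∧ m i < M i + L i) ∧ ¬ ∀ x : ℕ, Real.log N ^ C ≤ x → (x : ℝ) ≤ (N : ℝ) ^ κ → ∀ c ∈ H x,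
        (1 - 1 / (n : ℝ)) ^ n * ({p : ℕ | p ≤ x ∧ p.Prime ∧ p ≠ 2 ∧ p ∈ c.2 ∧ p % n = 1}.ncard : ℝ) - (x : ℝ) ^ (1 / 2 + δ) ≤
          ({p : ℕ | p ≤ x ∧ p.Prime ∧ p ≠ 2 ∧ p ∈ c.2 ∧ p % n = 1 ∧ ¬ p ∣ points p c.1 m}.ncard : ℝ)}.ncard : ℝ) ≤
      (N : ℝ) ^ (-κ) * ∏ i, (L i : ℝ) := by
  classical
  have hn0 : (0 : ℝ) < n := by exact_mod_cast (by omega : 0 < n)
  have hn1 : (1 : ℝ) ≤ n := by exact_mod_cast (by omega : 1 ≤ n)
  have hle : (1 - 1 / (n : ℝ)) ^ n ≤ 1 := by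
    apply pow_le_one₀
    · rw [sub_nonneg, div_le_one hn0]
      exact hn1
    · have : 0 ≤ 1 / (n : ℝ) := by positivity
      linarith
  obtain ⟨κ, C, hκ, hC, N₀, HH⟩ := Pool.Agent.X35.OR.dens_box n δ A (1 - (1 - 1 / (n : ℝ)) ^ n) 0 hδ (by linarith) le_rfl
  refine ⟨κ, C, hκ, hC, N₀, fun N hN H hH hdeg M L hL => ?_⟩
  have hmain := HH N hN (MvPolynomial (Fin n) ℤ) H hH (fun _ p => p % n = 1) (fun f p m => p ∣ Pool.Agent.X35.OR.cyp p f m)
    (fun x c _ p _ _ _ => Pool.Agent.X35.OR.cyp_per p c.1)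
    (fun x c hc p hp _ hR => by
      have h1 := Pool.Agent.X35.OR.prob_cy p n hp hn hR c.1 (hdeg x c hc)
      rw [zero_div, add_zero]
      exact h1) M L hL
  refine le_trans (le_of_eq ?_) hmain
  have e1 : ∀ (x : ℕ) (P : Set ℕ), ({p : ℕ | p ≤ x ∧ p.Prime ∧ p ≠ 2 ∧ p ∈ P ∧ p % n = 1}.ncard : ℝ) =
      ((Pool.Agent.X35.OR.sel x P (fun p => p % n = 1)).card : ℝ) := by
    intro x P
    rw [← Set.ncard_coe_finset]
    congr 2
    ext p
    rw [mem_coe, Pool.Agent.X35.OR.mem_sel, Set.mem_ofPred_eq]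
  have e2 : ∀ (x : ℕ) (P : Set ℕ) (f : MvPolynomial (Fin n) ℤ) (m : Fin n → ℤ),
      ({p : ℕ | p ≤ x ∧ p.Prime ∧ p ≠ 2 ∧ p ∈ P ∧ p % n = 1 ∧ ¬ p ∣ points p f m}.ncard : ℝ) =
      ((Pool.Agent.X35.OR.sel x P (fun p => p % n = 1 ∧ ¬ p ∣ Pool.Agent.X35.OR.cyp p f m)).card : ℝ) := by
    intro x P f m
    rw [← Set.ncard_coe_finset]
    congr 2
    ext p
    rw [mem_coe, Pool.Agent.X35.OR.mem_sel, Set.mem_ofPred_eq]
    rfl
  simp only [e1, e2, sub_sub_cancel]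

end Pool.Agent.Results.MP_db07cb_ag.CalabiYauInBoxes
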