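import Pool.Agent.X22.ND10
import Pool.Agent.X22.HS

/-!
# The slope zero part at a positive proportion of the primes for Calabi–Yau hypersurfaces with few random digits in the coefficients of the pure powers

Nothing is used besides Mathlib in the statement.
-/

set_option autoImplicit false

namespace Pool.Agent.Results.MP_db07cb_ag.FewDigitCalabiYauHypersurfaces

open Finset MvPolynomial

/-- The number of the solutions modulo `p` of `m_1 x_1 ^ n + ... + m_n x_n ^ n + f (x_1, ..., x_n) = 0`. If `f` is a form of degree `n`, it is `1 + (p - 1) #X (𝔽_p)`, where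
`X` is the hypersurface `m_1 x_1 ^ n + ... + m_n x_n ^ n + f = 0` of degree `n` in `ℙ ^ (n - 1)`. -/
noncomputable def points (p : ℕ) {n : ℕ} (f : MvPolynomial (Fin n) ℤ) (m : Fin n → ℕ) : ℕ :=
  Nat.card {x : Fin n → ZMod p // ∑ i, (m i : ZMod p) * x i ^ n + aeval x f = 0}

/-- The digit number `i` (counted from the right, beginning with `0`) of `n` in base `b`. -/
def digit (b i n : ℕ) : ℕ := n / b ^ i % b

/-- The number which arises from the number `N` with at most `K` digits in base `b`, if for every `i ∈ S`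
the digit number `i` is replaced by `f i`. -/
def change (b K N : ℕ) (f : ℕ → ℕ) (S : Finset ℕ) : ℕ :=
  ∑ i ∈ range K, (if i ∈ S then f i else digit b i N) * b ^ i

open Classical in
/-- The number of the choices of `s l` of `K l` positions for all `l < d` for which the vector of the numbers obtained by
changing the digits of the `N l` at the chosen positions (according to `f l`) does not have the property `E`. -/
noncomputable def exceptions {d : ℕ} (b : ℕ) (K s N : Fin d → ℕ) (f : Fin d → ℕ → ℕ) (E : (Fin d → ℕ) → Prop) : ℕ :=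
  ((Fintype.piFinset (fun l => powersetCard (s l) (range (K l)))).filter
    (fun S => ¬ E (fun l => change b (K l) (N l) (f l) (S l)))).card

open Pool.Agent.X22.ND (op mem_op density_law mean_zmod)
open Pool.Agent.TH894.NE (mean)

lemma points_mod (p : ℕ) {n : ℕ} (f : MvPolynomial (Fin n) ℤ) (m : Fin n → ℕ) : points p f m = points p f (fun i => m i % p) := by
  unfold points
  simp only [ZMod.natCast_mod]

lemma aeval_map' (p : ℕ) {n : ℕ} (f : MvPolynomial (Fin n) ℤ) (x : Fin n → ZMod p) : aeval x f = eval x (map (Int.castRingHom (ZMod p)) f) := by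
  rw [eval_map, aeval_def]
  rfl

open Classical in
lemma mean_bad (p n : ℕ) (hp' : p.Prime) (hn : 2 ≤ n) (hpn : p % n = 1) (f : MvPolynomial (Fin n) ℤ) (hf : f.totalDegree ≤ n) :
    mean n p (fun m => if p ∣ points p f m then (1 : ℝ) else 0) ≤ 1 - (1 - 1 / (n : ℝ)) ^ n := by
  have hfp : Fact p.Prime := ⟨hp'⟩
  obtain ⟨κ, hκ⟩ : ∃ κ, n * κ = p - 1 := by
    refine ⟨p / n, ?_⟩
    have := Nat.div_add_mod p n
    omega
  have hdeg : (map (Int.castRingHom (ZMod p)) f).totalDegree ≤ n := by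
    refine le_trans ?_ hf
    unfold MvPolynomial.totalDegree
    exact Finset.sup_mono (support_map_subset _ _)
  have h1 := mean_zmod n p hp' (fun v => if p ∣ Nat.card {x : Fin n → ZMod p // ∑ i, v i * x i ^ n + aeval x f = 0} then (1 : ℝ) else 0)
  have h2 := Pool.Agent.X22.HS.count (map (Int.castRingHom (ZMod p)) f) hdeg κ hκ (by omega) n ∅ (by simp)
  obtain ⟨G, hG⟩ : ∃ G, G = univ.filter (fun m : Fin n → ZMod p => Pool.Agent.X22.HS.U (map (Int.castRingHom (ZMod p)) f) κ ∅ m ≠ 0) := ⟨_, rfl⟩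
  rw [← hG] at h2
  have hp0 : (0 : ℝ) < p := by exact_mod_cast hp'.pos
  have h3 : (p - κ) ^ n ≤ G.card := by
    exact Nat.le_of_mul_le_mul_right h2 (pow_pos hp'.pos n)
  have h4 : ∀ v : Fin n → ZMod p, (p ∣ Nat.card {x : Fin n → ZMod p // ∑ i, v i * x i ^ n + aeval x f = 0}) ↔ v ∉ G := by
    intro v
    rw [hG, mem_filter, not_and]
    have e1 := Pool.Agent.X22.HS.points_eq (map (Int.castRingHom (ZMod p)) f) κ hκ (by omega) v
    simp only [← aeval_map'] at e1
    rw [← ZMod.natCast_eq_zero_iff, e1, neg_eq_zero]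
    constructor
    · intro h5 _ h6
      exact h6 h5
    · intro h5
      by_contra h6
      exact h5 (mem_univ _) h6
  have h5 : ∑ v : Fin n → ZMod p, (if p ∣ Nat.card {x : Fin n → ZMod p // ∑ i, v i * x i ^ n + aeval x f = 0} then (1 : ℝ) else 0) = (p : ℝ) ^ n - G.card := by
    have e2 : ∀ v : Fin n → ZMod p, (if p ∣ Nat.card {x : Fin n → ZMod p // ∑ i, v i * x i ^ n + aeval x f = 0} then (1 : ℝ) else 0) =
        1 - if v ∈ G then 1 else 0 := by
      intro v
      by_cases hv : v ∈ G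
      · rw [if_neg (fun h => (h4 v).1 h hv), if_pos hv, sub_self]
      · rw [if_pos ((h4 v).2 hv), if_neg hv, sub_zero]
    rw [sum_congr rfl (fun v _ => e2 v), sum_sub_distrib, sum_const, card_univ, Fintype.card_fun, ZMod.card, Fintype.card_fin, nsmul_eq_mul, mul_one,
      sum_ite_mem, univ_inter, sum_const, nsmul_eq_mul, mul_one]
    push_cast
    rfl
  have h6 : mean n p (fun m => if p ∣ points p f m then (1 : ℝ) else 0) = ((p : ℝ) ^ n - G.card) / (p : ℝ) ^ n := by
    rw [← h5, ← h1]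
    congr 1
  rw [h6, sub_div, div_self (pow_pos hp0 n).ne']
  have hn0 : (0 : ℝ) < n := by exact_mod_cast (by omega : 0 < n)
  have hn1 : (1 : ℝ) ≤ n := by exact_mod_cast (by omega : 1 ≤ n)
  have hκp : κ ≤ p := by
    have : κ ≤ n * κ := Nat.le_mul_of_pos_left κ (by omega)
    omega
  have hκr : (n : ℝ) * κ ≤ p := by
    have : n * κ ≤ p := by omega
    exact_mod_cast this
  have h7 : (1 - 1 / (n : ℝ)) ^ n * (p : ℝ) ^ n ≤ G.card := by
    have h8 : (((p - κ : ℕ) : ℝ)) ^ n ≤ G.card := by exact_mod_cast h3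
    refine le_trans ?_ h8
    rw [← mul_pow, Nat.cast_sub hκp]
    apply pow_le_pow_left₀
    · apply mul_nonneg _ hp0.le
      rw [sub_nonneg, div_le_one hn0]
      exact hn1
    · have h9 : (κ : ℝ) ≤ 1 / (n : ℝ) * p := by
        rw [div_mul_eq_mul_div, one_mul, le_div_iff₀ hn0]
        linarith
      linarith
  have h10 : (1 - 1 / (n : ℝ)) ^ n ≤ G.card / (p : ℝ) ^ n := by
    rw [le_div_iff₀ (pow_pos hp0 n)]
    exact h7
  linarith

open Classical in
/-- **The slope zero part for Calabi–Yau hypersurfaces with few random digits.** Let a base `b ≥ 2`, an integer `n ≥ 2`, `δ > 0` and an integer `A ≥ 0` be given. There are `c > 0` and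
`y₀` such that for all integers `r_i`, `K_i` (`i = 1, ..., n`) and `y` with `2 r_i ≤ K_i` and `y ≥ y₀` the following holds.

Let `0 ≤ N_i < b ^ K_i` be arbitrary integers, prescribe for every `i` and every position `j` a digit `g i j` different from the digit of
`N_i` in base `b`, and let `H x` be for every `x` any set of at most `x ^ A` pairs of a polynomial `f` with integral coefficients in `n` variables of degree at most `n` and a
set `P` of integers.
If one chooses for every `i` `r_i` of the `K_i` positions and replaces the digits of `N_i` at these positions, then for all but at most a proportion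
`1 / y ^ A` of the choices the vector `m` obtained has the following property: for all integers `x` with
`y ≤ x ≤ exp (c r_i)` for all `i` and all `(f, P) ∈ H x` the number of the primes `p ≤ x` in `P`, `p ≡ 1` modulo `n`, for which the number of the solutions modulo `p` of
`m_1 x_1 ^ n + ... + m_n x_n ^ n + f (x_1, ..., x_n) = 0` is not divisible by `p` is at least `(1 - 1 / n) ^ n` times the number of all primes `p ≤ x` in `P`, `p ≡ 1` modulo `n`, up to an
error of at most `x ^ (1 / 2 + δ)`. -/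
theorem result (b n : ℕ) (hb : 2 ≤ b) (hn : 2 ≤ n) (δ : ℝ) (hδ : 0 < δ) (A : ℕ) :
    ∃ c : ℝ, 0 < c ∧ ∃ y₀ : ℕ,
    ∀ (K r : Fin n → ℕ) (y : ℕ), (∀ i, 2 * r i ≤ K i) → y₀ ≤ y →
    ∀ N : Fin n → ℕ, (∀ i, N i < b ^ K i) → ∀ g : Fin n → ℕ → ℕ, (∀ i j, g i j < b ∧ g i j ≠ digit b j (N i)) →
    ∀ (H : ℕ → Finset (MvPolynomial (Fin n) ℤ × Finset ℕ)), (∀ x, ∀ q ∈ H x, q.1.totalDegree ≤ n) → (∀ x, (H x).card ≤ x ^ A) →
      (exceptions b K r N g (fun m => ∀ x : ℕ, y ≤ x → (∀ i, (x : ℝ) ≤ Real.exp (c * r i)) → ∀ q ∈ H x,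
        (1 - 1 / (n : ℝ)) ^ n * (((range (x + 1)).filter (fun p => p ∈ q.2 ∧ p.Prime ∧ p % n = 1)).card : ℝ) - (x : ℝ) ^ (1 / 2 + δ) ≤
          ((range (x + 1)).filter (fun p => (p ∈ q.2 ∧ p.Prime ∧ p % n = 1) ∧ ¬ p ∣ points p q.1 m)).card) : ℝ) ≤
        1 / (y : ℝ) ^ A * ∏ i, ((K i).choose (r i) : ℝ) := by
  obtain ⟨c, hc, y₀, h⟩ := density_law b n hb (by omega) δ hδ A A 0 le_rfl
  refine ⟨c, hc, y₀ + 2, fun K r y hrK hy N hN g hg H hH1 hH => ?_⟩
  have hp2 : ∀ p : ℕ, p % n = 1 → p ≠ 2 := by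
    rintro p hp rfl
    rcases hn.lt_or_eq with h3 | h3
    · rw [Nat.mod_eq_of_lt h3] at hp
      omega
    · rw [← h3] at hp
      omega
  have hθ : (1 - 1 / (n : ℝ)) ^ n ≤ 1 := by
    have hn0 : (0 : ℝ) < n := by exact_mod_cast (by omega : 0 < n)
    have hn1 : (1 : ℝ) ≤ n := by exact_mod_cast (by omega : 1 ≤ n)
    apply pow_le_one₀
    · rw [sub_nonneg, div_le_one hn0]
      exact hn1
    · have : 0 ≤ 1 / (n : ℝ) := by positivity
      linarith
  have h2 := h K r y hrK (by omega) N hN g hg (MvPolynomial (Fin n) ℤ × Finset ℕ) H (fun x _ => hH x)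
    (fun x q => (range (x + 1)).filter (fun p => p ∈ q.2 ∧ p.Prime ∧ p % n = 1))
    (by
      intro x q p hp
      rw [mem_filter, mem_range] at hp
      rw [mem_op]
      exact ⟨by omega, hp.2.2.1, hp2 p hp.2.2.2⟩)
    (fun q p m => p ∣ points p q.1 m) (fun q p m _ => by rw [points_mod]) (fun _ => 1 - (1 - 1 / (n : ℝ)) ^ n) (fun _ => by linarith)
    (by
      intro x _ q hq p hp
      rw [mem_filter] at hp
      rw [zero_div, add_zero]
      convert mean_bad p n hp.2.2.1 hn hp.2.2.2 q.1 (hH1 x q hq))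
    (fun m => ∀ x : ℕ, y ≤ x → (∀ i, (x : ℝ) ≤ Real.exp (c * r i)) → ∀ q ∈ H x,
        (1 - 1 / (n : ℝ)) ^ n * (((range (x + 1)).filter (fun p => p ∈ q.2 ∧ p.Prime ∧ p % n = 1)).card : ℝ) - (x : ℝ) ^ (1 / 2 + δ) ≤
          ((range (x + 1)).filter (fun p => (p ∈ q.2 ∧ p.Prime ∧ p % n = 1) ∧ ¬ p ∣ points p q.1 m)).card)
    (by
      intro m hm x hyx hxr q hq
      have h3 : (((((range (x + 1)).filter (fun p => p ∈ q.2 ∧ p.Prime ∧ p % n = 1)).filter (fun p => p ∣ points p q.1 m)).card : ℕ) : ℝ) ≤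
          (1 - (1 - 1 / (n : ℝ)) ^ n) * ((((range (x + 1)).filter (fun p => p ∈ q.2 ∧ p.Prime ∧ p % n = 1)).card : ℕ) : ℝ) + (x : ℝ) ^ (1 / 2 + δ) := by
        convert hm x hyx hxr q hq
      have h4 : (((range (x + 1)).filter (fun p => p ∈ q.2 ∧ p.Prime ∧ p % n = 1)).filter (fun p => p ∣ points p q.1 m)).card +
          ((range (x + 1)).filter (fun p => (p ∈ q.2 ∧ p.Prime ∧ p % n = 1) ∧ ¬ p ∣ points p q.1 m)).card =
          ((range (x + 1)).filter (fun p => p ∈ q.2 ∧ p.Prime ∧ p % n = 1)).card := by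
        rw [← filter_filter (fun p => p ∈ q.2 ∧ p.Prime ∧ p % n = 1) (fun p => ¬ p ∣ points p q.1 m)]
        exact card_filter_add_card_filter_not _
      have h5 : (((((range (x + 1)).filter (fun p => p ∈ q.2 ∧ p.Prime ∧ p % n = 1)).filter (fun p => p ∣ points p q.1 m)).card : ℕ) : ℝ) +
          ((((range (x + 1)).filter (fun p => (p ∈ q.2 ∧ p.Prime ∧ p % n = 1) ∧ ¬ p ∣ points p q.1 m)).card : ℕ) : ℝ) =
          ((((range (x + 1)).filter (fun p => p ∈ q.2 ∧ p.Prime ∧ p % n = 1)).card : ℕ) : ℝ) := by exact_mod_cast h4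
      linarith)
  unfold exceptions
  exact h2

end Pool.Agent.Results.MP_db07cb_ag.FewDigitCalabiYauHypersurfaces
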