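import Pool.Agent.Results.MP_db07cb_ag.CalabiYauInBoxes
import Pool.Agent.X124.RP.Vec

/-!
# The slope zero part for ALL the hypersurfaces `m_1 x_1 ^ n + ... + m_n x_n ^ n + f = 0` with `m` near the multiples `v_l α` of
a generic vector `α`

Here `m` runs over ALL integral vectors in the cubes with the centre `v_l α` and the side `2 v_l ^ θ`, and `α` is any real vector
outside a set of Hausdorff dimension at most `(n - κ + τ) / (1 - θ)`. There are two kinds of examples: `v_l = b ^ l` (`τ = 0`),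
where cubes of the side `v_l ^ θ`, `0 ≤ θ < κ / n`, are allowed for almost all `α`; and `v_l = l`, `θ < 0`, where the vectors
are the numerators of all good simultaneous rational approximations to almost all `α ∈ ℝ ^ n`, for instance of those given by
Dirichlet's theorem, `|m_i - l α_i| ≤ l ^ (- 1 / n)`.
-/

set_option autoImplicit false

namespace Pool.Agent.Results.MP_db07cb_ag.HypersurfacesAlongSequences

open Finset MeasureTheory MvPolynomial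
open CalabiYauInBoxes (points)

/-- the exponent of convergence of the sequence `v` is at most `τ` -/
def ExpLe (v : ℕ → ℝ) (τ : ℝ) : Prop := ∀ p : ℝ, τ < p → Summable (fun l : ℕ => (v l) ^ (-p))

/-- the largest `|m_i|` -/
def height {n : ℕ} (m : Fin n → ℤ) : ℕ := univ.sup fun i => (m i).natAbs

/-- The law, with `h` the largest `|m_i|`: for ALL integers `x` with `(log h) ^ C ≤ x ≤ h ^ κ` and ALL `(f, P) ∈ H x` the number
of the odd primes `p ≤ x` in `P`, `p ≡ 1` modulo `n`, for which the number of the solutions modulo `p` of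
`m_1 x_1 ^ n + ... + m_n x_n ^ n + f (x_1, ..., x_n) = 0` is not divisible by `p` is at least `(1 - 1 / n) ^ n` times the number
of all odd primes `p ≤ x` in `P`, `p ≡ 1` modulo `n`, minus `x ^ (1 / 2 + δ)`. -/
def Law {n : ℕ} (C κ δ : ℝ) (H : ℕ → Finset (MvPolynomial (Fin n) ℤ × Set ℕ)) (m : Fin n → ℤ) : Prop :=
  ∀ x : ℕ, Real.log (height m) ^ C ≤ x → (x : ℝ) ≤ (height m : ℝ) ^ κ → ∀ c ∈ H x,
    (1 - 1 / (n : ℝ)) ^ n * ({p : ℕ | p ≤ x ∧ p.Prime ∧ p ≠ 2 ∧ p ∈ c.2 ∧ p % n = 1}.ncard : ℝ) - (x : ℝ) ^ (1 / 2 + δ) ≤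
      ({p : ℕ | p ≤ x ∧ p.Prime ∧ p ≠ 2 ∧ p ∈ c.2 ∧ p % n = 1 ∧ ¬ p ∣ points p c.1 m}.ncard : ℝ)

lemma shells (n : ℕ) (hn : 2 ≤ n) (δ A : ℝ) (hδ : 0 < δ) : ∃ κ C : ℝ, 0 < κ ∧ κ ≤ 1 ∧ 0 < C ∧
    ∀ (H : ℕ → Finset (MvPolynomial (Fin n) ℤ × Set ℕ)), (∀ x, 2 ≤ x → ((H x).card : ℝ) ≤ (x : ℝ) ^ A) →
    (∀ x, ∀ c ∈ H x, c.1.totalDegree ≤ n) → ∃ B : ℝ, ∃ i₁ : ℕ, ∀ i : ℕ, i₁ ≤ i →
    ({m : Fin n → ℤ | m ∈ {m | ¬ Law C κ δ H m} ∧ 2 ^ i ≤ Pool.Agent.X124.RP.nm (fun m : Fin n → ℤ => m) m ∧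
      Pool.Agent.X124.RP.nm (fun m : Fin n → ℤ => m) m < 2 ^ (i + 1)}.ncard : ℝ) ≤ B * ((2 : ℝ) ^ i) ^ (n - κ) := by
  classical
  obtain ⟨κ₀, C, hκ₀, hC, N₀, HB⟩ := CalabiYauInBoxes.result n hn δ A hδ
  obtain ⟨κ, hκ⟩ : ∃ κ : ℝ, κ = min (κ₀ / 2) 1 := ⟨_, rfl⟩
  have hκ0 : 0 < κ := by rw [hκ]; exact lt_min (by linarith) one_pos
  have hκa : κ ≤ κ₀ / 2 := by rw [hκ]; exact min_le_left _ _
  have hκb : κ ≤ 1 := by rw [hκ]; exact min_le_right _ _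
  refine ⟨κ, C, hκ0, hκb, hC, fun H hH hdeg => ⟨4 ^ n, N₀ + 1, fun i hi => ?_⟩⟩
  obtain ⟨N, hN⟩ : ∃ N : ℕ, N = 2 ^ i := ⟨_, rfl⟩
  have hNN : N₀ ≤ N := by
    have h1 : i < 2 ^ i := Nat.lt_two_pow_self
    omega
  have hN2 : 2 ≤ N := by
    rw [hN]
    calc 2 = 2 ^ 1 := by norm_num
      _ ≤ 2 ^ i := Nat.pow_le_pow_right (by norm_num) (by omega)
  have hNr : ((2 : ℝ) ^ i) = N := by rw [hN]; push_cast; rfl
  have hN2r : (2 : ℝ) ≤ N := by exact_mod_cast hN2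
  have hbox := HB N hNN H hH hdeg (fun _ => -(2 * N : ℤ)) (fun _ => 4 * N) (fun _ => by omega)
  have hfin : ({m : Fin n → ℤ | (∀ i, (-(2 * N : ℤ)) ≤ m i ∧ m i < (-(2 * N : ℤ)) + ((4 * N : ℕ) : ℤ)) ∧
      ¬ ∀ x : ℕ, Real.log N ^ C ≤ x → (x : ℝ) ≤ (N : ℝ) ^ κ₀ → ∀ c ∈ H x,
        (1 - 1 / (n : ℝ)) ^ n * ({p : ℕ | p ≤ x ∧ p.Prime ∧ p ≠ 2 ∧ p ∈ c.2 ∧ p % n = 1}.ncard : ℝ) - (x : ℝ) ^ (1 / 2 + δ) ≤
          ({p : ℕ | p ≤ x ∧ p.Prime ∧ p ≠ 2 ∧ p ∈ c.2 ∧ p % n = 1 ∧ ¬ p ∣ points p c.1 m}.ncard : ℝ)}).Finite := by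
    refine (Set.Finite.pi' (t := fun _ => Set.Ico (-(2 * N : ℤ)) (-(2 * N : ℤ) + ((4 * N : ℕ) : ℤ)))
      (fun _ => Set.finite_Ico _ _)).subset ?_
    rintro m ⟨hm, -⟩ j
    exact ⟨(hm j).1, (hm j).2⟩
  have hsub : {m : Fin n → ℤ | m ∈ {m | ¬ Law C κ δ H m} ∧ 2 ^ i ≤ Pool.Agent.X124.RP.nm (fun m : Fin n → ℤ => m) m ∧
      Pool.Agent.X124.RP.nm (fun m : Fin n → ℤ => m) m < 2 ^ (i + 1)} ⊆
      {m : Fin n → ℤ | (∀ i, (-(2 * N : ℤ)) ≤ m i ∧ m i < (-(2 * N : ℤ)) + ((4 * N : ℕ) : ℤ)) ∧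
      ¬ ∀ x : ℕ, Real.log N ^ C ≤ x → (x : ℝ) ≤ (N : ℝ) ^ κ₀ → ∀ c ∈ H x,
        (1 - 1 / (n : ℝ)) ^ n * ({p : ℕ | p ≤ x ∧ p.Prime ∧ p ≠ 2 ∧ p ∈ c.2 ∧ p % n = 1}.ncard : ℝ) - (x : ℝ) ^ (1 / 2 + δ) ≤
          ({p : ℕ | p ≤ x ∧ p.Prime ∧ p ≠ 2 ∧ p ∈ c.2 ∧ p % n = 1 ∧ ¬ p ∣ points p c.1 m}.ncard : ℝ)} := by
    rintro m ⟨hm, h1, h2⟩
    have hco : ∀ l, |m l| < 2 * N := by
      intro l
      have h3 : (m l).natAbs < 2 ^ (i + 1) :=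
        (Finset.le_sup (f := fun l => (m l).natAbs) (mem_univ l)).trans_lt h2
      rw [pow_succ, ← hN] at h3
      rw [Int.abs_eq_natAbs]
      have : ((m l).natAbs : ℤ) < ((N * 2 : ℕ) : ℤ) := by exact_mod_cast h3
      push_cast at this ⊢
      linarith
    refine ⟨fun j => ?_, fun hcon => hm ?_⟩
    · have h3 := abs_lt.1 (hco j)
      push_cast
      exact ⟨by linarith, by linarith⟩
    · intro x hx1 hx2 c hc
      have hh : height m = Pool.Agent.X124.RP.nm (fun m : Fin n → ℤ => m) m := rfl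
      have h3 : (N : ℝ) ≤ height m := by rw [hh, hN]; exact_mod_cast h1
      have h4 : (height m : ℝ) ≤ (N : ℝ) ^ (2 : ℝ) := by
        rw [Real.rpow_two, hh]
        have h5 : ((Pool.Agent.X124.RP.nm (fun m : Fin n → ℤ => m) m : ℕ) : ℝ) ≤ ((2 ^ (i + 1) : ℕ) : ℝ) := by
          exact_mod_cast h2.le
        have h6 : ((2 ^ (i + 1) : ℕ) : ℝ) = N * 2 := by push_cast; rw [pow_succ, hNr]
        rw [h6] at h5
        nlinarith
      refine hcon x (le_trans ?_ hx1) (hx2.trans ?_) c hc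
      · exact Real.rpow_le_rpow (Real.log_nonneg (by linarith)) (Real.log_le_log (by linarith) h3) hC.le
      · calc (height m : ℝ) ^ κ ≤ ((N : ℝ) ^ (2 : ℝ)) ^ κ := Real.rpow_le_rpow (Nat.cast_nonneg _) h4 hκ0.le
          _ = (N : ℝ) ^ (2 * κ) := by rw [← Real.rpow_mul (by positivity)]
          _ ≤ (N : ℝ) ^ κ₀ := Real.rpow_le_rpow_of_exponent_le (by linarith) (by linarith)
  have h1 := Set.ncard_le_ncard hsub hfin
  have hN0 : (0 : ℝ) < N := by linarith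
  calc ({m : Fin n → ℤ | m ∈ {m | ¬ Law C κ δ H m} ∧ 2 ^ i ≤ Pool.Agent.X124.RP.nm (fun m : Fin n → ℤ => m) m ∧
      Pool.Agent.X124.RP.nm (fun m : Fin n → ℤ => m) m < 2 ^ (i + 1)}.ncard : ℝ) ≤ _ := by exact_mod_cast h1
    _ ≤ (N : ℝ) ^ (-κ₀) * ∏ _j : Fin n, ((4 * N : ℕ) : ℝ) := hbox
    _ = 4 ^ n * (N : ℝ) ^ (n - κ₀) := by
        rw [prod_const, card_univ, Fintype.card_fin]
        push_cast
        rw [mul_pow, ← Real.rpow_natCast (N : ℝ) n, sub_eq_add_neg, Real.rpow_add hN0]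
        ring
    _ ≤ 4 ^ n * (N : ℝ) ^ (n - κ) := by
        apply mul_le_mul_of_nonneg_left _ (by positivity)
        exact Real.rpow_le_rpow_of_exponent_le (by linarith) (by linarith)
    _ = 4 ^ n * ((2 : ℝ) ^ i) ^ (n - κ) := by rw [hNr]

lemma expLe_succ : ExpLe (fun l : ℕ => (l : ℝ) + 1) 1 := by
  intro p hp
  have h := Pool.Agent.Y854.GM.expLe_pow 1 one_pos p (by rw [div_one]; exact hp)
  simpa using h

/-- Let `n ≥ 2`, `δ > 0` and `A` be given. There are `0 < κ ≤ 1` and `C > 0` such that, for all choices of at most `x ^ A` pairs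
`(f, P) ∈ H x` of a polynomial `f` with integral coefficients in `n` variables of degree at most `n` and a set `P` of integers
for every `x ≥ 2`:

(1) for all sequences `v ≥ 1` of exponent of convergence at most `τ` (`τ ≥ 0`) and all real `θ < 1` there is a set `E ⊆ ℝ ^ n`
of Hausdorff dimension at most `(n - κ + τ) / (1 - θ)` such that for each `α` outside `E`, for all large `l`, the law holds for
ALL integral vectors `m` with `|m_i - α_i v_l| ≤ v_l ^ θ` for all `i`;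
(2) if `n θ + τ < κ` this is true for almost all `α`;
(3) in particular for almost all `α ∈ ℝ ^ n` the law holds for all large `N` and all integral vectors with
`|m_i - N α_i| ≤ N ^ (-1 / n)` for all `i`.
(4) The exponents of convergence of `v_l = (l + 1) ^ b` and `b ^ l` are at most `1 / b` and `0`. -/
theorem result (n : ℕ) (hn : 2 ≤ n) (δ A : ℝ) (hδ : 0 < δ) : ∃ κ C : ℝ, 0 < κ ∧ κ ≤ 1 ∧ 0 < C ∧
    (∀ (H : ℕ → Finset (MvPolynomial (Fin n) ℤ × Set ℕ)), (∀ x, 2 ≤ x → ((H x).card : ℝ) ≤ (x : ℝ) ^ A) →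
      (∀ x, ∀ c ∈ H x, c.1.totalDegree ≤ n) →
      (∀ (v : ℕ → ℝ) (τ θ : ℝ), (∀ l, 1 ≤ v l) → 0 ≤ τ → ExpLe v τ → θ < 1 →
        (∃ E : Set (Fin n → ℝ), dimH E ≤ ENNReal.ofReal ((n - κ + τ) / (1 - θ)) ∧
          ∀ α : Fin n → ℝ, α ∉ E → ∃ l₀ : ℕ, ∀ l : ℕ, l₀ ≤ l → ∀ m : Fin n → ℤ,
            (∀ i, |(m i : ℝ) - α i * v l| ≤ (v l) ^ θ) → Law C κ δ H m) ∧
        (n * θ + τ < κ → ∀ᵐ α : Fin n → ℝ, ∃ l₀ : ℕ, ∀ l : ℕ, l₀ ≤ l → ∀ m : Fin n → ℤ,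
            (∀ i, |(m i : ℝ) - α i * v l| ≤ (v l) ^ θ) → Law C κ δ H m)) ∧
      ∀ᵐ α : Fin n → ℝ, ∃ N₀ : ℕ, ∀ N : ℕ, N₀ ≤ N → ∀ m : Fin n → ℤ,
        (∀ i, |(m i : ℝ) - N * α i| ≤ (N : ℝ) ^ (-1 / n : ℝ)) → Law C κ δ H m) ∧
    (∀ b : ℝ, 0 < b → ExpLe (fun l : ℕ => ((l : ℝ) + 1) ^ b) (1 / b)) ∧
      ∀ b : ℝ, 1 < b → ExpLe (fun l : ℕ => b ^ l) 0 := by
  obtain ⟨κ, C, hκ, hκ1, hC, hsh⟩ := shells n hn δ A hδ
  have hn1 : (2 : ℝ) ≤ n := by exact_mod_cast hn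
  have hs : (0 : ℝ) ≤ n - κ := by linarith
  have hinj : Function.Injective (fun m : Fin n → ℤ => m) := fun _ _ h => h
  refine ⟨κ, C, hκ, hκ1, hC, fun H hH hdeg => ?_,
    fun b hb => Pool.Agent.Y854.GM.expLe_pow b hb, fun b hb => Pool.Agent.Y854.GM.expLe_geom b hb⟩
  have hae : ∀ (v : ℕ → ℝ) (τ θ : ℝ), (∀ l, 1 ≤ v l) → 0 ≤ τ → ExpLe v τ → θ < 1 → n * θ + τ < κ →
      ∀ᵐ α : Fin n → ℝ, ∃ l₀ : ℕ, ∀ l : ℕ, l₀ ≤ l → ∀ m : Fin n → ℤ,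
          (∀ i, |(m i : ℝ) - α i * v l| ≤ (v l) ^ θ) → Law C κ δ H m := by
    intro v τ θ hv1 hτ hE hθ h
    have h1 := Pool.Agent.X124.RP.along_ae (fun m : Fin n → ℤ => m) hinj {m | ¬ Law C κ δ H m} hs (hsh H hH hdeg) hv1 hτ hE hθ
      (by rw [Fintype.card_fin]; linarith)
    filter_upwards [h1] with α hα
    obtain ⟨l₀, hl⟩ := hα
    refine ⟨l₀, fun l hl1 m hm => ?_⟩
    by_contra hcon
    exact hl l hl1 m hcon hm
  refine ⟨fun v τ θ hv1 hτ hE hθ => ⟨?_, fun h => hae v τ θ hv1 hτ hE hθ h⟩, ?_⟩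
  · obtain ⟨E, h1, h2⟩ := Pool.Agent.X124.RP.along (fun m : Fin n → ℤ => m) hinj {m | ¬ Law C κ δ H m} hs (hsh H hH hdeg)
      hv1 hτ hE hθ
    refine ⟨E, h1, fun α hα => ?_⟩
    obtain ⟨l₀, hl⟩ := h2 α hα
    refine ⟨l₀, fun l hl1 m hm => ?_⟩
    by_contra hcon
    exact hl l hl1 m hcon hm
  · have hneg : (-1 / n : ℝ) < 1 := by
      have : (-1 / n : ℝ) ≤ 0 := div_nonpos_of_nonpos_of_nonneg (by norm_num) (by positivity)
      linarith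
    have h1 := hae (fun l : ℕ => (l : ℝ) + 1) 1 (-1 / n : ℝ)
      (fun l => by have : (0 : ℝ) ≤ l := Nat.cast_nonneg l
                   linarith) zero_le_one expLe_succ hneg (by
        have e : (n : ℝ) * (-1 / n) = -1 := by
          field_simp
        rw [e]
        linarith)
    filter_upwards [h1] with α hα
    obtain ⟨l₀, hl⟩ := hα
    refine ⟨l₀ + 1, fun N hN m hm => ?_⟩
    obtain ⟨l, rfl⟩ : ∃ l, N = l + 1 := ⟨N - 1, by omega⟩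
    refine hl l (by omega) m fun i => ?_
    have h2 := hm i
    push_cast at h2
    rw [mul_comm (α i)]
    exact h2

end Pool.Agent.Results.MP_db07cb_ag.HypersurfacesAlongSequences
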