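import Pool.Agent.X320.OP.Motive

/-!
# The density of the ordinary primes: existence, rationality and a uniform lower bound

Let `K` be a number field, `ℓ` an odd prime number, `S` a finite set of prime numbers containing `ℓ`, and for `i` in a
finite set let `V_i` be a pure motive over `K` of weight `w_i` and rank `n_i` with rational coefficients, for example
`IH^j(X)` for a projective variety `X` over `K`, such that every vertex `(k, h)` of the Hodge polygon satisfies
`w_i k - 2 h ≤ 2`. (Only the vertices with `2 k ≤ n_i` have to be considered.)

**Theorem.** The set of the places at which all `V_i` are ordinary, that is, at which the Newton polygons are the Hodge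
polygons, has a natural density `d`; it is a rational number and at least `∏ binom(n_i, k)^{-2}`, where the product is
over all `i` and all vertices `(k, h)` of the Hodge polygon of `V_i` with `0 < k ≤ n_i / 2`.

The condition holds for rank `2` with Hodge slopes `a, a + 1` (elliptic curves, `d ≥ 1 / 4`), rank `4` with slopes
`a, a, a + 1, a + 1` (abelian surfaces, `d ≥ 1 / 36`) and rank `n` with slopes `a - 1, a, ..., a, a + 1`, for example
`H^2` of K3 surfaces and `H^4` of cubic fourfolds (`d ≥ n^{-2}`). In general `V_i` satisfies the condition if and only if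
its Hodge numbers `h^{p, q}` are zero for `|p - q| > 2`, and `h^{p, p + 1} ≤ 2`, `h^{p, p + 2} ≤ 1` for all `p`. The bound
depends only on the Hodge numbers, not on the field `K` and not on the motives.

It is assumed that `V_i` is not isoclinic if its Hodge polygon is not a line (this follows from the Hodge-Tate
decomposition).
-/

set_option autoImplicit false

namespace Pool.Agent.Results.MP_db07cb_ag.UniformDensity

open NumberField IsDedekindDomain Filter Topology
open Pool.Agent.W401.Cheb (GK IsFrob)
open Pool.Agent.W528.Ord (ratio)
open Pool.Agent.W528.Ord.MultSystem (IsDeg1)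
open Pool.Agent.X320.OP (Motive)

theorem result (K : Type) [Field K] [NumberField K] (ℓ : ℕ) [Fact ℓ.Prime] (hℓ : ℓ ≠ 2)
    {ι : Type} [Fintype ι] (V : ι → Motive K ℓ) (S : Finset ℕ) (hS : ℓ ∈ S) (hV : ∀ i, (V i).IsMotive S)
    (hns : ∀ i, (V i).slope 0 < (V i).slope ((V i).n - 1) → (V i).NotIsoclinic S) :
    ∃ d : ℚ,
      Tendsto (ratio fun v : HeightOneSpectrum (𝓞 K) => IsDeg1 S v ∧ ∀ i, (V i).Ordinary v) atTop (𝓝 (d : ℝ)) ∧
      1 / (∏ i, ∏ k ∈ (V i).vertices, (((V i).n.choose k : ℕ) : ℝ) ^ 2) ≤ d :=
  Motive.density_ordinary hℓ V S hS hV hns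

end Pool.Agent.Results.MP_db07cb_ag.UniformDensity
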